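import Pool.Agent.Helper43_Frey.Ord
import Pool.Agent.THX.Stmts

/-!
# Squad THX, module SBS: a basis of small algebraic integers
-/

set_option linter.unusedSectionVars false

open Module NumberField

noncomputable section

namespace Pool.Agent.Helper43Frey

variable {K : Type*} [Field K] [NumberField K]

/-- The ring of integers as a subring. -/
def intSub (K : Type*) [Field K] : Subring K := (integralClosure ℤ K).toSubring

theorem balO_intSub (R : ℝ) : balO (intSub K) R = bal K R := by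
  ext x
  exact ⟨fun h => h.1, fun h => ⟨h, h.1⟩⟩

/-- The algebraic integers of size `≥ (4 3 ^ (n + 1)) |D| ^ (1 / n)` span. -/
theorem W_eq_top {H : ℝ} (hH : 1 ≤ H)
    (h : 4 ^ finrank ℚ K * 3 ^ (finrank ℚ K * (finrank ℚ K + 1)) * |(discr K : ℝ)| <
      H ^ finrank ℚ K) : W (intSub K) H = ⊤ := by
  by_contra hcon
  set n := finrank ℚ K with hn
  have hH0 : 0 < H := by linarith
  have h1 := card_of_not_span (intSub K) hH hcon
  rw [balO_intSub, ← hn] at h1
  have h2 := card_bal_ge (K := K) hH0.le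
  rw [← hn] at h2
  set D : ℝ := |(discr K : ℝ)| with hD
  have hD0 : 0 ≤ D := abs_nonneg _
  have h3 : ((H / 2) ^ n) ^ 2 ≤ ((bal K H).ncard : ℝ) ^ 2 * D := by
    calc ((H / 2) ^ n) ^ 2 ≤ (((bal K H).ncard : ℝ) * Real.sqrt D) ^ 2 :=
          pow_le_pow_left₀ (by positivity) h2 2
      _ = _ := by rw [mul_pow, Real.sq_sqrt hD0]
  have h4 : ((H / 2) ^ n) ^ 2 ≤ (3 ^ (n * (n + 1)) * H ^ n) * D :=
    h3.trans (mul_le_mul_of_nonneg_right h1 hD0)
  have h5 : ((H / 2) ^ n) ^ 2 = H ^ n * (H ^ n / 4 ^ n) := by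
    rw [div_pow, div_pow, ← pow_mul 2, mul_comm n 2, pow_mul]
    norm_num
    ring
  rw [h5] at h4
  have h6 : H ^ n * (H ^ n / 4 ^ n) ≤ H ^ n * (3 ^ (n * (n + 1)) * D) := by
    calc _ ≤ _ := h4
      _ = _ := by ring
  have h7 := le_of_mul_le_mul_left h6 (by positivity)
  rw [div_le_iff₀ (by positivity)] at h7
  have h8 : 3 ^ (n * (n + 1)) * D * 4 ^ n = 4 ^ n * 3 ^ (n * (n + 1)) * D := by ring
  rw [h8] at h7
  linarith

/-- SBS. -/
theorem sbs : Pool.Agent.THX.SbsStmt := by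
  classical
  intro n hn
  set C : ℝ := 4 * 3 ^ (n + 1) + 1 with hC
  have hC1 : 1 ≤ C := by
    have : (0 : ℝ) ≤ 4 * 3 ^ (n + 1) := by positivity
    linarith
  refine ⟨C, hC1, ?_⟩
  intro K _ _ hK
  set D : ℝ := |(discr K : ℝ)| with hD
  have hD1 : 1 ≤ D := by
    rw [hD, ← Int.cast_abs]
    exact_mod_cast Int.one_le_abs (discr_ne_zero K)
  have hn0 : (n : ℝ) ≠ 0 := by exact_mod_cast hn.ne'
  set t : ℝ := D ^ ((1 : ℝ) / n) with ht
  have ht1 : 1 ≤ t := Real.one_le_rpow hD1 (by positivity)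
  have htn : t ^ n = D := by
    rw [ht, ← Real.rpow_natCast, ← Real.rpow_mul (by linarith), one_div, inv_mul_cancel₀ hn0,
      Real.rpow_one]
  have hCt : 1 ≤ C * t := by nlinarith
  have h1 : W (intSub K) (C * t) = ⊤ := by
    apply W_eq_top hCt
    rw [hK, mul_pow, htn]
    apply mul_lt_mul_of_pos_right _ (by linarith)
    have h2 : (4 : ℝ) ^ n * 3 ^ (n * (n + 1)) = (4 * 3 ^ (n + 1)) ^ n := by
      rw [mul_pow, ← pow_mul, mul_comm n (n + 1)]
    rw [h2]
    apply pow_lt_pow_left₀ _ (by positivity) hn.ne'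
    rw [hC]
    linarith
  unfold W at h1
  rw [balO_intSub] at h1
  obtain ⟨b, hb1, hb2, hb3⟩ := exists_linearIndependent ℚ (bal K (C * t))
  rw [h1] at hb2
  let B : Basis b ℚ K := Basis.mk hb3 (by rw [Subtype.range_coe]; exact hb2.ge)
  have : Fintype b := FiniteDimensional.fintypeBasisIndex B
  have hcard : Fintype.card b = n := by rw [← hK]; exact (finrank_eq_card_basis B).symm
  let e : Fin n ≃ b := (Fintype.equivFinOfCardEq hcard).symm
  refine ⟨fun i => ⟨(e i : K), (hb1 (e i).2).1⟩, ?_, fun i φ => (hb1 (e i).2).2 φ⟩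
  exact hb3.comp e e.injective

end Pool.Agent.Helper43Frey
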